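import Pool.Agent.Q98.BM.Sep

/-!
# Banach-Mazur rotation problem: isometries differing by a compact operator

Let `E` be a separable real Banach space with transitive norm. If two different surjective linear
isometries of `E` differ by a strictly singular (for instance by a compact) operator, then `E` is a
Hilbert space. In other words, for a separable transitive space which is not a Hilbert space the
isometry group embeds into the Calkin algebra.

Proof outline (files `Pool/Agent/Q98/BM/*`). Let `T ≠ 1` be an isometry with `T - 1` strictly
singular.

1. `Calc`: smooth functional calculus (Fourier series) of an isometry; the part of `T` with spectrum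
   off `1` has finite rank, and `T - 1` is compact.
2. `Sep`: if the isometries `k n` converge to `1` at every vector then `k n T (k n)⁻¹` converges to
   `T` in norm: in the ultrapower `T⁻¹ (k T k⁻¹)` is an isometry which is the identity modulo the
   space of its fixed vectors. `Near` (Baire category): nearby points of the sphere can be joined
   by isometries which almost commute with `T` in norm.
3. `Small`: hence there are isometries `S n ≠ 1` (commutators or powers) converging to `1` in norm
   which almost fix some unit vector. `Ultra`, `Final`: the limit of `(S n - 1) / ‖S n - 1‖` is a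
   skew-Hermitian operator `X` of the ultrapower of `E` with `X ≠ 0` and `ker X ≠ 0`.
4. `Irr`: the conjugates of an operator of finite rank act irreducibly enough; so `X` does not
   commute with some conjugate of `T`. `Ext`: smooth functional calculus of the action
   `X ↦ T X T⁻¹` extracts from `X` a nonzero skew-Hermitian operator of finite rank. `Exp`, `Skew`:
   its exponential is an isometry of the ultrapower of finite rank type.
5. `Fin`, `Form`, `Beta`, `Proj`, `Lim`: a self-contained proof that a transitive space (of any
   density) with an isometry `≠ 1` which differs from `1` by an operator of finite rank is a Hilbert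
   space: finitely many such isometries generate a group acting on a finite-dimensional quotient;
   it has an invariant inner product; these forms, suitably normalised, converge along an
   ultrafilter to an inner product which all isometries preserve up to a factor.
-/

set_option autoImplicit false
set_option linter.unusedVariables false

namespace Pool.Agent.Results.MP_cc72b1_an.CompactPerturbation

open Pool.Agent.Q98.BM

theorem result :
    ∀ (E : Type) [NormedAddCommGroup E] [NormedSpace ℝ E] [CompleteSpace E]
      [TopologicalSpace.SeparableSpace E] (S T : E ≃ₗᵢ[ℝ] E),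
      (∀ x y : E, ‖x‖ = 1 → ‖y‖ = 1 → ∃ U : E ≃ₗᵢ[ℝ] E, U x = y) →
      S ≠ T →
      (∀ M : Submodule ℝ E, IsClosed (M : Set E) →
        (∃ c : ℝ, 0 < c ∧ ∀ x ∈ M, c * ‖x‖ ≤ ‖T x - S x‖) → FiniteDimensional ℝ M) →
      ∃ (H : Type) (instH : NormedAddCommGroup H) (instI : InnerProductSpace ℝ H)
        (instC : CompleteSpace H), Nonempty (E ≃ₗᵢ[ℝ] H) := by
  intro E _ _ _ _ S T htr hne hss
  set R : E ≃ₗᵢ[ℝ] E := T.trans S.symm with hR
  have hRa : ∀ x, R x = S.symm (T x) := fun x => rfl
  have hd : ∀ x, ‖R x - x‖ = ‖T x - S x‖ := by
    intro x
    have h1 : R x - x = S.symm (T x - S x) := by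
      rw [map_sub, S.symm_apply_apply, hRa]
    rw [h1, LinearIsometryEquiv.norm_map]
  have hS : SS R := by
    intro M hM hc
    refine hss M hM ?_
    obtain ⟨c, hc0, hc⟩ := hc
    exact ⟨c, hc0, fun x hx => by rw [← hd]; exact hc x hx⟩
  have hT : ∃ x, R x ≠ x := by
    by_contra hcon
    push Not at hcon
    apply hne
    ext x
    have h1 := hd x
    rw [hcon x, sub_self, norm_zero] at h1
    have h2 := norm_eq_zero.1 h1.symm
    exact (sub_eq_zero.1 h2).symm
  have key : ∀ x y : E,
      ‖x + y‖ * ‖x + y‖ + ‖x - y‖ * ‖x - y‖ = 2 * (‖x‖ * ‖x‖ + ‖y‖ * ‖y‖) :=
    fun x y => main htr hT hS (ac_of_sep htr hS.ff) x y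
  exact ⟨E, inferInstance, InnerProductSpace.ofNorm ℝ key, inferInstance,
    ⟨LinearIsometryEquiv.refl ℝ E⟩⟩

end Pool.Agent.Results.MP_cc72b1_an.CompactPerturbation
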