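import Mathlib
import Pool.Agent.Q193.BF.Cplx

/-!
# Banach-Mazur rotation problem: function spaces

A separable Banach space of measurable functions whose norm is monotone in the modulus (a Koethe
function space) and whose linear isometries act transitively on the unit sphere is a Hilbert space:

* for complex functions without any further hypothesis (the isometries are only assumed to be real
  linear),
* for real functions if the space carries one nonzero bounded generator of a one-parameter group of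
  isometries.

Proof outline (files `Pool/Agent/Q193/BF/*`).

1. `Skew.lean`: `A` is skew if `f (A x) = 0` whenever `f` is a support functional at `x`.  By Baire
   category (`near_open`), if `A` is skew and `A x = 0`, the range of `A` is contained in the closure
   of the vectors `B x`, `B` skew.
2. `FS.lean`, `Mult.lean`: the space is `L^0` multiples of one function `u`; every bounded function
   acts, with dense orbit of `u`, and dominated convergence holds because `E` is separable.
3. `Rel.lean`: the off-diagonal blocks of a skew operator are skew, skew operators which preserve all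
   bands vanish, and no band is invariant under all skew operators.
4. `Pos.lean`, `Dens.lean`: let `f` be the support functional at `u`.  For `d > 0` the support
   functional at `d u` is `f` with a density `w`.  The antisymmetry of a skew operator at `u` and at
   `d u` shows that its blocks between different levels of `w / d` vanish, so `w / d` is constant.
5. `Hilb.lean`: so the norm of `d u` is a multiple of the `L_2` norm of `d`.
6. `Cplx.lean`: complex functions on `Ω` are real functions on two copies of `Ω`, and the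
   multiplication by the imaginary unit is a skew operator.
-/

set_option autoImplicit false

namespace Pool.Agent.Results.MP_cc72b1_an.FunctionSpaces

open MeasureTheory

theorem result :
    -- complex functions
    (∀ (Ω : Type) [MeasurableSpace Ω] (μ : Measure Ω) (E : Type) [NormedAddCommGroup E]
      [NormedSpace ℝ E] [CompleteSpace E] [TopologicalSpace.SeparableSpace E]
      (ι : E →ₗ[ℝ] (Ω →ₘ[μ] ℂ)), Function.Injective ι →
      (∀ (x : E) (g : Ω →ₘ[μ] ℂ), (∀ᵐ ω ∂μ, ‖g ω‖ ≤ ‖ι x ω‖) → ∃ y : E, ι y = g ∧ ‖y‖ ≤ ‖x‖) →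
      (∀ x y : E, ‖x‖ = 1 → ‖y‖ = 1 → ∃ T : E ≃ₗᵢ[ℝ] E, T x = y) →
      ∃ (H : Type) (instH : NormedAddCommGroup H) (instI : InnerProductSpace ℝ H)
        (instC : CompleteSpace H), Nonempty (E ≃ₗᵢ[ℝ] H)) ∧
    -- real functions
    (∀ (Ω : Type) [MeasurableSpace Ω] (μ : Measure Ω) (E : Type) [NormedAddCommGroup E]
      [NormedSpace ℝ E] [CompleteSpace E] [TopologicalSpace.SeparableSpace E]
      (ι : E →ₗ[ℝ] (Ω →ₘ[μ] ℝ)), Function.Injective ι →
      (∀ (x : E) (g : Ω →ₘ[μ] ℝ), (∀ᵐ ω ∂μ, ‖g ω‖ ≤ ‖ι x ω‖) → ∃ y : E, ι y = g ∧ ‖y‖ ≤ ‖x‖) →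
      (∀ x y : E, ‖x‖ = 1 → ‖y‖ = 1 → ∃ T : E ≃ₗᵢ[ℝ] E, T x = y) →
      (∃ A : E →L[ℝ] E, A ≠ 0 ∧ ∀ (t : ℝ) (x : E), ‖NormedSpace.exp (t • A) x‖ = ‖x‖) →
      ∃ (H : Type) (instH : NormedAddCommGroup H) (instI : InnerProductSpace ℝ H)
        (instC : CompleteSpace H), Nonempty (E ≃ₗᵢ[ℝ] H)) := by
  constructor
  · intro Ω _ μ E _ _ _ _ ι hinj hsol htr
    have key : ∀ x y : E, ‖x + y‖ * ‖x + y‖ + ‖x - y‖ * ‖x - y‖ = 2 * (‖x‖ * ‖x‖ + ‖y‖ * ‖y‖) :=
      fun x y => Pool.Q193.BF.complex_case ι hinj hsol htr x y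
    exact ⟨E, inferInstance, InnerProductSpace.ofNorm ℝ key, inferInstance,
      ⟨LinearIsometryEquiv.refl ℝ E⟩⟩
  · intro Ω _ μ E _ _ _ _ ι hinj hsol htr hA
    obtain ⟨A, hA0, hA⟩ := hA
    have hsol' : ∀ (x : E) (g : Ω →ₘ[μ] ℝ), (∀ᵐ ω ∂μ, |g ω| ≤ |ι x ω|) →
        ∃ y : E, ι y = g ∧ ‖y‖ ≤ ‖x‖ := fun x g h => hsol x g h
    have key : ∀ x y : E, ‖x + y‖ * ‖x + y‖ + ‖x - y‖ * ‖x - y‖ = 2 * (‖x‖ * ‖x‖ + ‖y‖ * ‖y‖) :=
      fun x y => Pool.Q193.BF.real_case ι hinj hsol' htr (Pool.Q193.BF.Sk.of_exp hA) hA0 x y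
    exact ⟨E, inferInstance, InnerProductSpace.ofNorm ℝ key, inferInstance,
      ⟨LinearIsometryEquiv.refl ℝ E⟩⟩

end Pool.Agent.Results.MP_cc72b1_an.FunctionSpaces
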