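import Mathlib
import Pool.Agent.Q193.HP.Main

/-!
# Banach-Mazur rotation problem: spaces with one hermitian projection

A separable reflexive complex Banach space whose linear isometries act transitively on the unit
sphere and which carries one hermitian projection `P ≠ 0, 1` (that is, `(1 - P) + z P` is isometric
for `|z| = 1`) is a Hilbert space.  Nothing is assumed on the rank of `P`.  (The spaces `L_p` have
dense orbits and many hermitian projections, and their ultrapowers are transitive and reflexive but
not separable.)

Proof outline (files `Pool/Agent/Q193/HP/*`).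

1. `Sk`, `Near`, `Rg`, `Big`: call `A` skew if `Re f (A x) = 0` for support functionals `f` at `x`.
   By Baire category, if `A` is skew and `A x = 0`, the range of `A` is contained in the closure of
   the vectors `B x`, `B` skew.  Let `U` and `V` be the ranges of `P` and `1 - P`.  The off-diagonal
   skew operators are pairs `a : V → U`, `a' : U → V`; they form a Jordan pair `W`, and the vectors
   `a y` are dense in `U` for every `y ≠ 0` in `V`.
2. `Num`, `Kap`, `PS`: the operators `a' a` have hermitian powers and a spectral theory (the powers
   of `a' a` grow like the powers of the numerical radius).  `Lim`, `TS`, `Pp`, `Def`, `Def2`,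
   `Uniq`, `Trip`: by weak compactness some pair maximises finitely or countably many quantities,
   and such pairs are tripotents: `e e' e = e`.
3. `Split`, `Split2`, `Rank1`, `Mid`: a tripotent `e ≠ 0` either is a sum of two orthogonal ones or
   `e e'` has rank one.
4. `Wp`, `Three`, `Hilb`, `Side`: a transitive-like space with three orthogonal hermitian projections
   connected by `W` is a Hilbert space; this applies to `U` and to `V` when two successive splittings
   are possible.
5. `Adj`, `Schur`, `Fin`: when `U` and `V` are Hilbert spaces, `a'` is the adjoint of `a` for every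
   pair in `W`; the skew operators act as an irreducible family of skew-adjoint operators on the
   Hilbert sum `U ⊕ V`, so by Schur's lemma the isometries of `E` are unitary for this Hilbert norm,
   and by transitivity the two norms agree.
6. `Rk`: when a tripotent `e` of rank one exists, `1 + 2 (e - e')^2` is an isometry which differs from
   `1` by an operator of finite rank, and the result of helper98 on such isometries applies
   (`Pool/Agent/Q98/BM`).
-/

set_option autoImplicit false

namespace Pool.Agent.Results.MP_cc72b1_an.HermitianProjection

theorem result :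
    ∀ (E : Type) [NormedAddCommGroup E] [NormedSpace ℂ E] [CompleteSpace E]
      [TopologicalSpace.SeparableSpace E] (P : E →L[ℂ] E),
      -- `E` is reflexive
      Function.Surjective (NormedSpace.inclusionInDoubleDual ℂ E) →
      -- the complex linear isometries act transitively on the unit sphere
      (∀ x y : E, ‖x‖ = 1 → ‖y‖ = 1 → ∃ T : E ≃ₗᵢ[ℂ] E, T x = y) →
      -- `P` is a hermitian projection different from `0` and `1`
      (∀ x, P (P x) = P x) → P ≠ 0 → P ≠ ContinuousLinearMap.id ℂ E →
      (∀ (z : ℂ) (x : E), ‖z‖ = 1 → ‖(x - P x) + z • P x‖ = ‖x‖) →
      ∃ (H : Type) (instH : NormedAddCommGroup H) (instI : InnerProductSpace ℂ H)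
        (instC : CompleteSpace H), Nonempty (E ≃ₗᵢ[ℂ] H) := by
  intro E _ _ _ _ P hrefl htr hP hP0 hP1 hn
  have hn' : ∀ (t : ℝ) (x : E), ‖x + (Complex.exp (t * Complex.I) - 1) • P x‖ = ‖x‖ := by
    intro t x
    rw [← hn (Complex.exp (t * Complex.I)) x (Complex.norm_exp_ofReal_mul_I t)]
    congr 1
    module
  have key : ∀ x y : E,
      ‖x + y‖ * ‖x + y‖ + ‖x - y‖ * ‖x - y‖ = 2 * (‖x‖ * ‖x‖ + ‖y‖ * ‖y‖) := by
    intro x y
    have h := Pool.Q193.HP.main (Pool.Q193.HP.wl_of_reflexive hrefl) htr hP hP0 hP1 hn' x y
    rw [← pow_two, ← pow_two, ← pow_two, ← pow_two]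
    exact h
  exact ⟨E, inferInstance, InnerProductSpace.ofNorm ℂ key, inferInstance,
    ⟨LinearIsometryEquiv.refl ℂ E⟩⟩

end Pool.Agent.Results.MP_cc72b1_an.HermitianProjection
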