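import Pool.Agent.Q101.BmFin

/-!
# The rotation problem inside `L_p`: Hilbert or almost isometric copies of `ℓ_r`, `r ≠ 2`

Let `E` be a real Banach space whose linear isometries have dense orbits on the unit sphere (for
instance a transitive norm). If `E` embeds isometrically into some `L_p(μ)`, `0 < p < ∞`, or if some
nonconstant metric transform of `E` embeds into a Hilbert space, then `E` is a Hilbert space or it
contains almost isometric copies of `ℓ_r` for one `r ≠ 2`, `1 ≤ r < ∞`.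
-/

set_option autoImplicit false
set_option linter.unusedVariables false

namespace Pool.Agent.Results.MP_cc72b1_an.SubspacesOfLpNoEll

open MeasureTheory
open scoped ENNReal BigOperators

/-- `E` is linearly isometric to a real Hilbert space. -/
def IsHilbert (E : Type) [NormedAddCommGroup E] [NormedSpace ℝ E] : Prop :=
  ∃ (H : Type) (instH : NormedAddCommGroup H) (instI : InnerProductSpace ℝ H)
    (instC : CompleteSpace H), Nonempty (E ≃ₗᵢ[ℝ] H)

/-- `E` contains almost isometric copies of `ℓ_r`: for every `ε > 0` there is a sequence `x i` with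
`(1 - ε) ∑ |a i| ^ r ≤ ‖∑ a i • x i‖ ^ r ≤ (1 + ε) ∑ |a i| ^ r` for all finite sums. -/
def ContainsEll (E : Type) [NormedAddCommGroup E] [NormedSpace ℝ E] (r : ℝ) : Prop :=
  ∀ ε : ℝ, 0 < ε → ∃ x : ℕ → E, ∀ (s : Finset ℕ) (a : ℕ → ℝ),
    (1 - ε) * ∑ i ∈ s, |a i| ^ r ≤ ‖∑ i ∈ s, a i • x i‖ ^ r ∧
      ‖∑ i ∈ s, a i • x i‖ ^ r ≤ (1 + ε) * ∑ i ∈ s, |a i| ^ r

/-- `‖x - y‖ ^ r` is a kernel of negative type on `E`. -/
def NegType (E : Type) [NormedAddCommGroup E] (r : ℝ) : Prop :=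
  ∀ (n : ℕ) (x : Fin n → E) (c : Fin n → ℝ), ∑ i, c i = 0 →
    ∑ i, ∑ j, c i * c j * ‖x i - x j‖ ^ r ≤ 0

/-- For finitely many pairs `x i`, `y i` some linear isometry `T` gives
`‖x i + T (y i)‖ ^ r ≈ ‖x i‖ ^ r + ‖y i‖ ^ r` for all `i`. -/
def RotatesToEll (E : Type) [NormedAddCommGroup E] [NormedSpace ℝ E] (r : ℝ) : Prop :=
  ∀ (n : ℕ) (x y : Fin n → E) (ε : ℝ), 0 < ε → ∃ T : E ≃ₗᵢ[ℝ] E,
    ∀ i, |‖x i + T (y i)‖ ^ r - ‖x i‖ ^ r - ‖y i‖ ^ r| < ε

/-- The mean of `‖x ± z₁ ± ⋯ ± zₙ‖` over all choices of signs. -/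
noncomputable def signMean {E : Type} [NormedAddCommGroup E] : List E → E → ℝ
  | [], x => ‖x‖
  | z :: l, x => (signMean l (x + z) + signMean l (x - z)) / 2

/-- `E` has equal norm type `q` for every `q < 2`. -/
def TypeBelowTwo (E : Type) [NormedAddCommGroup E] : Prop :=
  ∀ q : ℝ, 0 < q → q < 2 → ∃ C : ℝ, ∀ l : List E, (∀ z ∈ l, ‖z‖ = 1) →
    signMean l 0 ≤ C * (l.length : ℝ) ^ (1 / q)

lemma signMean_eq {E : Type} [NormedAddCommGroup E] (l : List E) :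
    ∀ x : E, signMean l x = Pool.Agent.Q101.Bm.sg (fun x : E => ‖x‖) l x := by
  induction l with
  | nil => intro x; rfl
  | cons z l ih =>
    intro x
    show (signMean l (x + z) + signMean l (x - z)) / 2 = (_ + _) / 2
    rw [ih, ih]

theorem result :
    ∀ (E : Type) [NormedAddCommGroup E] [NormedSpace ℝ E] [CompleteSpace E],
      (∀ x y : E, ‖x‖ = 1 → ‖y‖ = 1 → ∀ ε : ℝ, 0 < ε → ∃ T : E ≃ₗᵢ[ℝ] E, ‖T x - y‖ < ε) →
      -- isometric subspaces of `L_p`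
      (∀ (Ω : Type) [MeasurableSpace Ω] (μ : Measure Ω) (p : ℝ≥0∞), p ≠ 0 → p ≠ ∞ →
        (∃ J : E →ₗ[ℝ] Lp ℝ p μ, ∀ u, ‖J u‖ = ‖u‖) →
        IsHilbert E ∨ ∃ r : ℝ, 1 ≤ r ∧ r ≠ 2 ∧ p.toReal ≤ r ∧ (2 < p → r = p.toReal) ∧
          (p ≤ 2 → r < 2 ∧ NegType E r ∧
            (∀ β : ℝ, 0 < β → β ≤ 2 → NegType E β → β ≤ r) ∧ RotatesToEll E r) ∧
          ContainsEll E r) ∧
      -- metric transforms inside Hilbert spaces
      (∀ (K : Type) [NormedAddCommGroup K] [InnerProductSpace ℝ K] (f : E → K) (τ : ℝ → ℝ),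
        Continuous f → (∀ x y, ‖f x - f y‖ = τ ‖x - y‖) → (∃ x y, f x ≠ f y) →
        (IsHilbert E ∨ ∃ r : ℝ, 1 ≤ r ∧ r < 2 ∧ NegType E r ∧
          (∀ β : ℝ, 0 < β → β ≤ 2 → NegType E β → β ≤ r) ∧ RotatesToEll E r ∧
          ContainsEll E r) ∧
        (TypeBelowTwo E → IsHilbert E)) := by
  intro E _ _ _ hAT
  refine ⟨?_, ?_⟩
  · intro Ω _ μ p hp0 hpt hJ
    obtain ⟨J, hJ⟩ := hJ
    rcases Pool.Agent.Q101.Bm.fin_lp E hAT Ω μ p hp0 hpt J hJ with h | h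
    · exact Or.inl (Pool.Agent.Q101.Bm.fin_hilb E h)
    · exact Or.inr h
  · intro K _ _ f τ hf hτ hne
    have hF := Pool.Agent.Q101.Bm.fin_mt E K f τ hf hτ hne
    refine ⟨?_, ?_⟩
    · rcases Pool.Agent.Q101.Bm.fin_main E hAT hF with h | h
      · exact Or.inl (Pool.Agent.Q101.Bm.fin_hilb E h)
      · exact Or.inr h
    · intro hTy
      apply Pool.Agent.Q101.Bm.fin_hilb E
      apply Pool.Agent.Q101.Bm.fin_type E hAT hF
      intro q h0 h2
      obtain ⟨C, hC⟩ := hTy q h0 h2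
      refine ⟨C, fun l hl => ?_⟩
      rw [← signMean_eq]
      exact hC l hl

end Pool.Agent.Results.MP_cc72b1_an.SubspacesOfLpNoEll
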